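import Pool.Agent.W317.DR.Stm

set_option autoImplicit false

open Pool.Agent.W317.DR

namespace Pool.Agent.W346.DR

lemma inter_card {α : Type} [DecidableEq α] (P R Q : Finset α) :
    (P ∩ Q).card + (R ∩ Q).card ≤ (P ∩ R).card + Q.card := by
  have h1 := Finset.card_union_add_card_inter (P ∩ Q) (R ∩ Q)
  have h2 : ((P ∩ Q) ∪ (R ∩ Q)).card ≤ Q.card :=
    Finset.card_le_card (Finset.union_subset Finset.inter_subset_right Finset.inter_subset_right)
  have h3 : ((P ∩ Q) ∩ (R ∩ Q)).card ≤ (P ∩ R).card := by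
    refine Finset.card_le_card fun v hv => ?_
    simp only [Finset.mem_inter] at hv ⊢
    exact ⟨hv.1.1, hv.2.1⟩
  omega

section

variable {I : Type} [Fintype I] [DecidableEq I] {p : Par I}

lemma sf_symm {c c' : RC p} (h : c.SameFr c') : c'.SameFr c := ⟨h.1.symm, h.2.symm⟩

lemma sf_trans {c c' c'' : RC p} (h : c.SameFr c') (h' : c'.SameFr c'') : c.SameFr c'' :=
  ⟨h.1.trans h'.1, h.2.trans h'.2⟩

lemma mem_edges {c : RC p} {e : Finset ℕ} : e ∈ c.edges ↔ e = c.ga ∨ e = c.gb ∨ e ∈ c.coreS := by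
  unfold RC.edges
  simp only [Finset.mem_insert]

lemma core_sub (c : RC p) : c.coreS ⊆ c.edges := fun _ h => mem_edges.2 (Or.inr (Or.inr h))

lemma edges_sub (h : HC p) : h.toRC.edges ⊆ h.hedges := Finset.subset_union_left

/-- two forced edges in one copy are equal -/
lemma fo_le_one (hD : S_DEL) {N0 : Finset (Finset ℕ)} {Y Y' : Finset ℕ}
    {B Fo : Finset (Finset ℕ)} (hfo : ∀ e ∈ Fo, FoOK N0 Y Y' B e) (h : HC p) :
    (h.hedges ∩ Fo).card ≤ 1 := by
  rw [Finset.card_le_one]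
  intro a ha b hb
  by_contra hab
  rw [Finset.mem_inter] at ha hb
  have h1 := hD I p h a ha.1 b hb.1 hab
  obtain ⟨ζ, hζ, -⟩ := hfo a ha.2
  obtain ⟨ζ', hζ', -⟩ := hfo b hb.2
  have h2 : a \ b ⊆ {ζ} := by
    intro v hv
    rw [Finset.mem_sdiff, hζ, hζ'] at hv
    simp only [Finset.mem_insert, not_or] at hv
    rw [Finset.mem_singleton]
    tauto
  have h3 := Finset.card_le_card h2
  rw [Finset.card_singleton] at h3
  omega

lemma qu_sdiff {N0 : Finset (Finset ℕ)} {Y Y' : Finset ℕ} {A B Qu Te Fo : Finset (Finset ℕ)}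
    {c1 : RC p} {ρ : Finset ℕ → RC p} (hI : Inv p N0 Y Y' A B Qu Te Fo)
    (hT : TeI p N0 A B Qu Te c1 ρ) : (Qu \ c1.coreS).card ≤ p.r + 3 := by
  have h1 := Finset.card_sdiff_add_card_inter Qu c1.coreS
  have h2 := hI.hQ2
  have h3 := hT.ref
  rw [Finset.inter_comm] at h3
  omega

lemma te_core (hTy : S_TYPE) {N0 : Finset (Finset ℕ)}
    {A B Qu Te : Finset (Finset ℕ)} {c1 : RC p} {ρ : Finset ℕ → RC p}
    (hT : TeI p N0 A B Qu Te c1 ρ) :
    (Te.filter (fun t => t ∈ (ρ t).coreS)).card ≤ (Qu \ c1.coreS).card := by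
  classical
  refine Finset.card_le_card_of_injOn
    (fun t => if (ρ t).ga ∈ Qu then (ρ t).ga else (ρ t).gb) ?_ ?_
  · intro t ht
    rw [Finset.mem_coe, Finset.mem_filter] at ht
    have h1 := hT.gad t ht.1 ht.2
    have h2 := hTy I p (ρ t) c1 (hT.fr t ht.1)
    simp only [Finset.coe_sdiff, Set.mem_sdiff, Finset.mem_coe]
    split_ifs with h3
    · exact ⟨h3, h2.2.1⟩
    · exact ⟨h1.resolve_left h3, h2.2.2.1⟩
  · intro t ht t' ht' heq
    rw [Finset.mem_coe, Finset.mem_filter] at ht ht'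
    have hsf : (ρ t).SameFr (ρ t') := sf_trans (hT.fr t ht.1) (sf_symm (hT.fr t' ht'.1))
    have h2 := hTy I p (ρ t) (ρ t') hsf
    have h3 := hTy I p (ρ t') (ρ t) (sf_symm hsf)
    refine hT.inj t ht.1 t' ht'.1 ?_
    simp only at heq
    split_ifs at heq with h4 h5 h5
    · exact h2.2.2.2.1 heq
    · exact absurd heq h2.1
    · exact absurd heq.symm h3.1
    · exact h2.2.2.2.2.1 heq

lemma te_share (hC : S_CARD) (hE : S_EXT) (hTy : S_TYPE) (h0 : S_CL0)
    {N0 : Finset (Finset ℕ)} {Y Y' : Finset ℕ} {A B Qu Te Fo : Finset (Finset ℕ)}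
    {c1 : RC p} {ρ : Finset ℕ → RC p} (hI : Inv p N0 Y Y' A B Qu Te Fo)
    (hT : TeI p N0 A B Qu Te c1 ρ) (t : Finset ℕ) (ht : t ∈ Te) :
    Fintype.card I ≤ ((ρ t).coreS ∩ Qu).card + (p.r + 4) := by
  have h1 := (hC I p).1 (ρ t)
  have h2 := qu_sdiff hI hT
  have h3 := te_core hTy hT
  obtain ⟨h, hh, -⟩ := hE I p (ρ t) ∅
  have hsub : (ρ t).coreS ⊆ ((ρ t).coreS ∩ Qu) ∪
      (((ρ t).edges \ A) ∪ Te.filter (fun t => t ∈ (ρ t).coreS)) := by
    intro e he
    simp only [Finset.mem_union, Finset.mem_inter, Finset.mem_sdiff, Finset.mem_filter]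
    by_cases hA : e ∈ A
    · rw [hI.hA, Finset.mem_union, Finset.mem_union] at hA
      rcases hA with hq | hte | hfo
      · exact Or.inl ⟨he, hq⟩
      · right; right
        refine ⟨hte, ?_⟩
        have h4 := hT.mem e hte
        rw [mem_edges] at h4
        have hsf : (ρ e).SameFr (ρ t) := sf_trans (hT.fr e hte) (sf_symm (hT.fr t ht))
        have h5 := hTy I p (ρ e) (ρ t) hsf
        rcases h4 with h6 | h6 | h6
        · exact absurd he (by rw [h6]; exact h5.2.1)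
        · exact absurd he (by rw [h6]; exact h5.2.2.1)
        · exact h6
      · exfalso
        have h4 := (h0 I p N0 Y Y' B c1 h e hI.hY hT.pot (by rw [hh]; exact hT.fr t ht)
          (hI.fo e hfo)).1
        rw [hh] at h4
        exact h4 he
    · right; left
      exact ⟨core_sub _ he, hA⟩
  have h6 := (Finset.card_le_card hsub).trans (Finset.card_union_le _ _)
  have h7 := Finset.card_union_le ((ρ t).edges \ A) (Te.filter (fun t => t ∈ (ρ t).coreS))
  have h8 := hT.miss t ht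
  omega

end

theorem cnt (hC : S_CARD) (hD : S_DEL) (hE : S_EXT) (hTy : S_TYPE) (hS : S_SIM) (h0 : S_CL0) :
    S_CNT := by
  intro I _ _ p N0 Y Y' A B Qu Te Fo c1 ρ hI hT
  refine ⟨te_core hTy hT, qu_sdiff hI hT, fo_le_one hD hI.fo, ?_⟩
  intro h
  by_contra hcon
  push Not at hcon
  set S := h.hedges ∩ Te.filter (fun t => t ∉ (ρ t).coreS) with hS'
  have hmem : ∀ t ∈ S, t ∈ h.hedges ∧ t ∈ Te ∧ (t = (ρ t).ga ∨ t = (ρ t).gb) := by
    intro t ht
    rw [hS', Finset.mem_inter, Finset.mem_filter] at ht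
    have h1 := hT.mem t ht.2.1
    rw [mem_edges] at h1
    refine ⟨ht.1, ht.2.1, ?_⟩
    rcases h1 with h1 | h1 | h1
    · exact Or.inl h1
    · exact Or.inr h1
    · exact absurd h1 ht.2.2
  classical
  have hpart := Finset.card_filter_add_card_filter_not (s := S) (fun t => t = (ρ t).ga)
  have hshare : ∀ t ∈ S, ∀ t' ∈ S, Fintype.card I ≤ ((ρ t).coreS ∩ (ρ t').coreS).card +
      (6 * p.r + 30) := by
    intro t ht t' ht'
    have h1 := te_share hC hE hTy h0 hI hT t (hmem t ht).2.1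
    have h2 := te_share hC hE hTy h0 hI hT t' (hmem t' ht').2.1
    have h3 := inter_card (ρ t).coreS (ρ t').coreS Qu
    have h4 := hI.hQ2
    omega
  have hsf : ∀ t ∈ S, ∀ t' ∈ S, (ρ t).SameFr (ρ t') := fun t ht t' ht' =>
    sf_trans (hT.fr t (hmem t ht).2.1) (sf_symm (hT.fr t' (hmem t' ht').2.1))
  have hcase : 1 < (S.filter (fun t => t = (ρ t).ga)).card ∨
      1 < (S.filter (fun t => ¬ t = (ρ t).ga)).card := by omega
  rcases hcase with h1 | h1
  · obtain ⟨t, ht, t', ht', hne⟩ := Finset.one_lt_card.1 h1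
    rw [Finset.mem_filter] at ht ht'
    have h2 := (hS I p (ρ t) (ρ t') (hsf t ht.1 t' ht'.1) (hshare t ht.1 t' ht'.1)).1
    rw [← ht.2, ← ht'.2] at h2
    have h3 := hD I p h t (hmem t ht.1).1 t' (hmem t' ht'.1).1 hne
    omega
  · obtain ⟨t, ht, t', ht', hne⟩ := Finset.one_lt_card.1 h1
    rw [Finset.mem_filter] at ht ht'
    have h4 := (hmem t ht.1).2.2.resolve_left ht.2
    have h5 := (hmem t' ht'.1).2.2.resolve_left ht'.2
    have h2 := (hS I p (ρ t) (ρ t') (hsf t ht.1 t' ht'.1) (hshare t ht.1 t' ht'.1)).2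
    rw [← h4, ← h5] at h2
    have h3 := hD I p h t (hmem t ht.1).1 t' (hmem t' ht'.1).1 hne
    omega

theorem near (_hC : S_CARD) (hE : S_EXT) (hA : S_AL) (hN : S_CNT) : S_NEAR := by
  intro I _ _ p N0 Y Y' A B Qu Te Fo c1 ρ x hI hT c hc
  obtain ⟨h, hh, -⟩ := hE I p c ∅
  obtain ⟨h1, h2, h3, h4⟩ := hN I p N0 Y Y' A B Qu Te Fo c1 ρ hI hT
  refine hA I p c c1 ?_
  have hsub : c.coreS ∩ insert x A ⊆ {x} ∪ ((c.coreS ∩ Qu) ∪
      (Te.filter (fun t => t ∈ (ρ t).coreS) ∪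
        ((h.hedges ∩ Te.filter (fun t => t ∉ (ρ t).coreS)) ∪ (h.hedges ∩ Fo)))) := by
    intro e he
    simp only [Finset.mem_union, Finset.mem_inter, Finset.mem_filter, Finset.mem_singleton,
      Finset.mem_insert] at he ⊢
    have hh' : e ∈ h.hedges := edges_sub h (by rw [hh]; exact core_sub c he.1)
    rcases he.2 with h5 | h5
    · exact Or.inl h5
    · rw [hI.hA, Finset.mem_union, Finset.mem_union] at h5
      by_cases h6 : e ∈ (ρ e).coreS
      · tauto
      · tauto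
  have h6 := (Finset.card_le_card hsub).trans (Finset.card_union_le _ _)
  have h7 := Finset.card_union_le (c.coreS ∩ Qu) (Te.filter (fun t => t ∈ (ρ t).coreS) ∪
        ((h.hedges ∩ Te.filter (fun t => t ∉ (ρ t).coreS)) ∪ (h.hedges ∩ Fo)))
  have h8 := Finset.card_union_le (Te.filter (fun t => t ∈ (ρ t).coreS))
    ((h.hedges ∩ Te.filter (fun t => t ∉ (ρ t).coreS)) ∪ (h.hedges ∩ Fo))
  have h9 := Finset.card_union_le (h.hedges ∩ Te.filter (fun t => t ∉ (ρ t).coreS))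
    (h.hedges ∩ Fo)
  rw [Finset.card_singleton] at h6
  have h10 := h3 h
  have h11 := h4 h
  have h12 := inter_card c.coreS c1.coreS Qu
  have h13 := hI.hQ2
  have h14 := hT.ref
  omega

end Pool.Agent.W346.DR
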