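import Pool.Agent.W346.DR.Cnt

set_option autoImplicit false

open Pool.Agent.W317.DR

namespace Pool.Agent.W346.DR

theorem ref (_hC : S_CARD) (hD : S_DEL) (hE : S_EXT) (h0 : S_CL0) (hH : S_THR) : S_REF := by
  intro I _ _ p N0 Y Y' A B Qu Fo x y c ρ hI hxA hxB hthr
  obtain ⟨h1, h2, h3, h4, h5, h6, h7⟩ := hH I p A B x y c hI.hAB hI.nt hxA hxB hthr
  obtain ⟨h, hh, -⟩ := hE I p c ∅
  have hpot : Pot p N0 c := by
    unfold Pot
    have hsub : c.coreS ∩ insert x A ⊆ {x} ∪ ((c.coreS ∩ Qu) ∪ (h.hedges ∩ Fo)) := by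
      intro e he
      simp only [Finset.mem_union, Finset.mem_inter, Finset.mem_singleton,
        Finset.mem_insert] at he ⊢
      have hh' : e ∈ h.hedges := edges_sub h (by rw [hh]; exact core_sub c he.1)
      rcases he.2 with h5 | h5
      · exact Or.inl h5
      · rw [hI.hA, Finset.mem_union, Finset.mem_union] at h5
        rcases h5 with h5 | h5 | h5
        · tauto
        · simp at h5
        · tauto
    have h8 := (Finset.card_le_card hsub).trans (Finset.card_union_le _ _)
    have h9 := Finset.card_union_le (c.coreS ∩ Qu) (h.hedges ∩ Fo)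
    have h10 := fo_le_one hD hI.fo h
    have hsub2 : c.coreS ∩ Qu ⊆ (c.coreS ∩ N0) ∪ (Qu \ N0) := by
      intro e he
      simp only [Finset.mem_union, Finset.mem_inter, Finset.mem_sdiff] at he ⊢
      tauto
    have h11 := (Finset.card_le_card hsub2).trans (Finset.card_union_le _ _)
    have h12 := hI.hN0
    rw [Finset.card_singleton] at h8
    omega
  refine ⟨hpot, ?_, by simp, by simp, by simp, by simp, by simp, by simp⟩
  have hsub : c.coreS ∩ insert x A ⊆ {x} ∪ (c.coreS ∩ Qu) := by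
    intro e he
    simp only [Finset.mem_union, Finset.mem_inter, Finset.mem_singleton,
      Finset.mem_insert] at he ⊢
    rcases he.2 with h5 | h5
    · exact Or.inl h5
    · rw [hI.hA, Finset.mem_union, Finset.mem_union] at h5
      rcases h5 with h5 | h5 | h5
      · tauto
      · simp at h5
      · exfalso
        have h8 := (h0 I p N0 Y Y' B c h e hI.hY hpot (by rw [hh]; exact ⟨rfl, rfl⟩)
          (hI.fo e h5)).1
        rw [hh] at h8
        exact h8 he.1
  have h8 := (Finset.card_le_card hsub).trans (Finset.card_union_le _ _)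
  rw [Finset.card_singleton] at h8
  omega

/-- gadget edges of unblocked copies in the reference frame are quiet -/
lemma gq_aux (hE : S_EXT) (hTy : S_TYPE) (h0 : S_CL0) {I : Type} [Fintype I] [DecidableEq I]
    {p : Par I} {N0 : Finset (Finset ℕ)} {Y Y' : Finset ℕ} {A B Qu Te Fo : Finset (Finset ℕ)}
    {c1 : RC p} {ρ : Finset ℕ → RC p} (hI : Inv p N0 Y Y' A B Qu Te Fo)
    (hT : TeI p N0 A B Qu Te c1 ρ) (c : RC p) (hsf : c.SameFr c1) (hdis : Disjoint c.edges B)
    (g : Finset ℕ) (hg : g = c.ga ∨ g = c.gb) (hgA : g ∈ A) : g ∈ Qu := by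
  have hge : g ∈ c.edges := by
    rw [mem_edges]
    tauto
  rw [hI.hA, Finset.mem_union, Finset.mem_union] at hgA
  rcases hgA with h1 | h1 | h1
  · exact h1
  · exfalso
    have hsf' : c.SameFr (ρ g) := sf_trans hsf (sf_symm (hT.fr g h1))
    have h2 := hTy I p c (ρ g) hsf'
    have h3 := hTy I p (ρ g) c (sf_symm hsf')
    have h4 := hT.mem g h1
    rw [mem_edges] at h4
    have h5 : c = ρ g := by
      rcases hg with hg | hg
      · rcases h4 with h4 | h4 | h4
        · exact h2.2.2.2.1 (hg ▸ h4)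
        · exact absurd (hg ▸ h4) h2.1
        · exact absurd (hg ▸ h4) h2.2.1
      · rcases h4 with h4 | h4 | h4
        · have h6 : (ρ g).ga = c.gb := by rw [← h4]; exact hg
          exact absurd h6 h3.1
        · have h6 : c.gb = (ρ g).gb := by rw [← h4]; exact hg.symm
          exact h2.2.2.2.2.1 h6
        · have h6 : c.gb ∈ (ρ g).coreS := by rw [← hg]; exact h4
          exact absurd h6 h2.2.2.1
    obtain ⟨b, hb, hb'⟩ := hT.blk g h1
    rw [← h5] at hb'
    exact Finset.disjoint_left.1 hdis hb' hb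
  · exfalso
    obtain ⟨h, hh, -⟩ := hE I p c ∅
    have h8 := (h0 I p N0 Y Y' B c1 h g hI.hY hT.pot (by rw [hh]; exact hsf) (hI.fo g h1)).2.2
    rw [hh] at h8
    exact h8 hdis (edges_sub h (by rw [hh]; exact hge))

theorem gq (hC : S_CARD) (hE : S_EXT) (hTy : S_TYPE) (h0 : S_CL0) (hH : S_THR) (hN : S_NEAR) :
    S_GQ := by
  intro I _ _ p N0 Y Y' A B Qu Te Fo c1 ρ x y c hI hT hxA hxB hthr hxc
  obtain ⟨h1, h2, h3, h4, h5, h6, h7⟩ := hH I p A B x y c hI.hAB hI.nt hxA hxB hthr
  have hsf : c.SameFr c1 := hN I p N0 Y Y' A B Qu Te Fo c1 ρ x hI hT c (by omega)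
  obtain ⟨hga, hgb, hab⟩ := (hC I p).2.1 c
  have key : ∀ g, (g = c.ga ∨ g = c.gb) → g ≠ y → g ∈ Qu := by
    intro g hg hgy
    refine gq_aux hE hTy h0 hI hT c hsf h4 g hg ?_
    have hge : g ∈ c.edges := by
      rw [mem_edges]
      tauto
    have hgc : g ∉ c.coreS := by
      rcases hg with rfl | rfl
      · exact hga
      · exact hgb
    have h8 : g ∈ insert x A := by
      by_contra hcon
      have h9 : g ∈ c.edges \ insert x A := Finset.mem_sdiff.2 ⟨hge, hcon⟩
      rw [h5, Finset.mem_singleton] at h9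
      exact hgy h9
    rcases Finset.mem_insert.1 h8 with h9 | h9
    · rw [h9] at hgc
      exact absurd hxc hgc
    · exact h9
  by_cases h8 : c.ga = y
  · right
    exact key c.gb (Or.inr rfl) (fun h9 => hab (h8.trans h9.symm))
  · left
    exact key c.ga (Or.inl rfl) h8

/-- the reference copy when there is a threat -/
lemma get_ref (hH : S_THR) (hN : S_NEAR) (hR : S_REF) {I : Type} [Fintype I] [DecidableEq I]
    {p : Par I} {N0 : Finset (Finset ℕ)} {Y Y' : Finset ℕ} {A B Qu Te Fo : Finset (Finset ℕ)}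
    (hI : FInv p N0 Y Y' A B Qu Te Fo) (x y : Finset ℕ) (c : RC p) (hxA : x ∉ A) (hxB : x ∉ B)
    (hthr : Thr p (insert x A) B c y) : ∃ c1 ρ, TeI p N0 A B Qu Te c1 ρ ∧ c.SameFr c1 := by
  obtain ⟨hI, hTe⟩ := hI
  obtain ⟨h1, h2, h3, h4, h5, h6, h7⟩ := hH I p A B x y c hI.hAB hI.nt hxA hxB hthr
  rcases hTe with rfl | ⟨c1, ρ, hT⟩
  · exact ⟨c, fun _ => c, hR I p N0 Y Y' A B Qu Fo x y c _ hI hxA hxB hthr, rfl, rfl⟩
  · exact ⟨c1, ρ, hT, hN I p N0 Y Y' A B Qu Te Fo c1 ρ x hI hT c (by omega)⟩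

theorem l2 (_hC : S_CARD) (hE : S_EXT) (h0 : S_CL0) (hH : S_THR) (hN : S_NEAR) (hR : S_REF) :
    S_L2 := by
  intro I _ _ p N0 Y Y' A B Qu Te Fo x hF hxA hxB hfo
  have hI := hF.1
  refine ⟨⟨?_, ?_, hI.cN0, hI.hN0, hI.hQ1, hI.hQ2, ⟨?_, ?_⟩, hI.hY, ?_⟩, ?_⟩
  · rw [hI.hA]
    ext e
    simp only [Finset.mem_insert, Finset.mem_union]
    tauto
  · rw [Finset.disjoint_insert_left]
    exact ⟨hxB, hI.hAB⟩
  · intro c y hthr
    obtain ⟨h1, h2, h3, h4, h5, h6, h7⟩ := hH I p A B x y c hI.hAB hI.nt hxA hxB hthr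
    obtain ⟨c1, ρ, hT, hsf⟩ := get_ref hH hN hR hF x y c hxA hxB hthr
    obtain ⟨h, hh, -⟩ := hE I p c ∅
    have h8 := (h0 I p N0 Y Y' B c1 h x hI.hY hT.pot (by rw [hh]; exact hsf) hfo).2.2
    rw [hh] at h8
    exact h8 h4 (edges_sub h (by rw [hh]; exact h1))
  · intro c hc
    exact hI.nt.1 c x ⟨hxA, hxB, hc⟩
  · intro e he
    rcases Finset.mem_insert.1 he with rfl | he
    · exact hfo
    · exact hI.fo e he
  · rcases hF.2 with h | ⟨c1, ρ, hT⟩
    · exact Or.inl h
    · refine Or.inr ⟨c1, ρ, ⟨hT.pot, hT.ref, hT.fr, hT.mem, fun t ht => ?_, hT.blk, hT.gad,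
        hT.inj⟩⟩
      refine (Finset.card_le_card ?_).trans (hT.miss t ht)
      exact Finset.sdiff_subset_sdiff subset_rfl (Finset.subset_insert _ _)

theorem l3 (_hC : S_CARD) (_hT : S_TYPE) (hV : S_COV) (hH : S_THR) (hN : S_NEAR) (hR : S_REF)
    (hG : S_GQ) : S_L3 := by
  intro I _ _ p N0 Y Y' A B Qu Te Fo x y c hF hxA hxB hthr huniq
  have hI := hF.1
  obtain ⟨h1, h2, h3, h4, h5, h6, h7⟩ := hH I p A B x y c hI.hAB hI.nt hxA hxB hthr
  obtain ⟨c1, ρ, hT, hsf⟩ := get_ref hH hN hR hF x y c hxA hxB hthr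
  have hTeA : ∀ t ∈ Te, t ≠ x := by
    rintro t ht rfl
    apply hxA
    rw [hI.hA]
    simp only [Finset.mem_union]
    tauto
  refine ⟨⟨⟨?_, ?_, hI.cN0, hI.hN0, hI.hQ1, hI.hQ2, ⟨?_, ?_⟩, hI.hY, ?_⟩, ?_⟩, ?_⟩
  · rw [hI.hA]
    ext e
    simp only [Finset.mem_insert, Finset.mem_union]
    tauto
  · rw [Finset.disjoint_insert_right, Finset.disjoint_insert_left]
    exact ⟨hthr.1, hxB, hI.hAB⟩
  · intro c' y' hthr'
    have h8 : y' ∉ B := fun h => hthr'.2.1 (Finset.mem_insert_of_mem h)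
    have h9 := huniq c' y' ⟨hthr'.1, h8, hthr'.2.2⟩
    exact hthr'.2.1 (by rw [h9]; exact Finset.mem_insert_self _ _)
  · intro c' hc'
    exact hI.nt.1 c' x ⟨hxA, hxB, hc'⟩
  · intro e he
    obtain ⟨ζ, h8, h9, h10⟩ := hI.fo e he
    exact ⟨ζ, h8, Finset.mem_insert_of_mem h9, h10⟩
  · refine Or.inr ⟨c1, Function.update ρ x c, ⟨hT.pot, hT.ref, ?_, ?_, ?_, ?_, ?_, ?_⟩⟩
    · intro t ht
      rcases Finset.mem_insert.1 ht with rfl | ht
      · rw [Function.update_self]
        exact hsf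
      · rw [Function.update_of_ne (hTeA t ht)]
        exact hT.fr t ht
    · intro t ht
      rcases Finset.mem_insert.1 ht with rfl | ht
      · rw [Function.update_self]
        exact h1
      · rw [Function.update_of_ne (hTeA t ht)]
        exact hT.mem t ht
    · intro t ht
      rcases Finset.mem_insert.1 ht with rfl | ht
      · rw [Function.update_self, h5, Finset.card_singleton]
      · rw [Function.update_of_ne (hTeA t ht)]
        refine (Finset.card_le_card ?_).trans (hT.miss t ht)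
        exact Finset.sdiff_subset_sdiff subset_rfl (Finset.subset_insert _ _)
    · intro t ht
      rcases Finset.mem_insert.1 ht with rfl | ht
      · rw [Function.update_self]
        exact ⟨y, Finset.mem_insert_self _ _, h2⟩
      · rw [Function.update_of_ne (hTeA t ht)]
        obtain ⟨b, hb, hb'⟩ := hT.blk t ht
        exact ⟨b, Finset.mem_insert_of_mem hb, hb'⟩
    · intro t ht
      rcases Finset.mem_insert.1 ht with rfl | ht
      · rw [Function.update_self]
        intro hxc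
        exact hG I p N0 Y Y' A B Qu Te Fo c1 ρ t y c hI hT hxA hxB hthr hxc
      · rw [Function.update_of_ne (hTeA t ht)]
        exact hT.gad t ht
    · have hne : ∀ t ∈ Te, ρ t ≠ c := by
        intro t ht h8
        obtain ⟨b, hb, hb'⟩ := hT.blk t ht
        rw [h8] at hb'
        exact Finset.disjoint_left.1 h4 hb' hb
      intro t ht t' ht'
      rcases Finset.mem_insert.1 ht with hta | hta
      · rcases Finset.mem_insert.1 ht' with htb | htb
        · intro _; rw [hta, htb]
        · rw [hta, Function.update_self, Function.update_of_ne (hTeA t' htb)]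
          intro h8
          exact absurd h8.symm (hne t' htb)
      · rcases Finset.mem_insert.1 ht' with htb | htb
        · rw [htb, Function.update_self, Function.update_of_ne (hTeA t hta)]
          intro h8
          exact absurd h8 (hne t hta)
        · rw [Function.update_of_ne (hTeA t hta), Function.update_of_ne (hTeA t' htb)]
          exact hT.inj t hta t' htb
  · intro v hv
    refine (hV I p c1).2 N0 hT.pot v ?_
    have h8 : c.U = c1.U := by
      unfold RC.U
      rw [hsf.2]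
    rw [← hsf.1, ← h8]
    exact hv

end Pool.Agent.W346.DR
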