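import Pool.Agent.W317.DR.Stm

set_option autoImplicit false

open Pool.Agent.W317.DR

namespace Pool.Agent.W346.DR

/-- pairwise disjoint subsets of given cardinality -/
lemma disj_subsets {ι : Type} [DecidableEq ι] (w : ℕ) (J : Finset ι) :
    ∀ R : Finset ℕ, J.card * w ≤ R.card → ∃ S : ι → Finset ℕ,
      (∀ s ∈ J, (S s).card = w ∧ S s ⊆ R) ∧ ∀ s ∈ J, ∀ t ∈ J, s ≠ t → Disjoint (S s) (S t) := by
  induction J using Finset.induction_on with
  | empty => exact fun R _ => ⟨fun _ => ∅, by simp, by simp⟩
  | insert a J ha ih =>
    intro R hR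
    rw [Finset.card_insert_of_notMem ha, add_mul, one_mul] at hR
    obtain ⟨S0, hS0, hS0c⟩ := Finset.exists_subset_card_eq (s := R) (n := w) (by omega)
    obtain ⟨S, h1, h2⟩ := ih (R \ S0) (by rw [Finset.card_sdiff_of_subset hS0]; omega)
    refine ⟨Function.update S a S0, ?_, ?_⟩
    · intro s hs
      by_cases hsa : s = a
      · subst hsa
        rw [Function.update_self]
        exact ⟨hS0c, hS0⟩
      · rw [Function.update_of_ne hsa]
        have := h1 s ((Finset.mem_insert.1 hs).resolve_left hsa)
        exact ⟨this.1, this.2.trans Finset.sdiff_subset⟩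
    · have key : ∀ s ∈ J, Disjoint S0 (S s) := fun s hs =>
        Finset.disjoint_of_subset_right (h1 s hs).2 Finset.disjoint_sdiff
      intro s hs t ht hst
      by_cases hsa : s = a
      · subst hsa
        rw [Function.update_self, Function.update_of_ne (Ne.symm hst)]
        exact key t ((Finset.mem_insert.1 ht).resolve_left (Ne.symm hst))
      · by_cases hta : t = a
        · subst hta
          rw [Function.update_self, Function.update_of_ne hsa]
          exact (key s ((Finset.mem_insert.1 hs).resolve_left hsa)).symm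
        · rw [Function.update_of_ne hsa, Function.update_of_ne hta]
          exact h2 s ((Finset.mem_insert.1 hs).resolve_left hsa) t
            ((Finset.mem_insert.1 ht).resolve_left hta) hst

theorem ext : S_EXT := by
  intro I _ _ p c V
  set Z : Finset ℕ := insert c.z (c.F ∪ c.U ∪ V) with hZ
  obtain ⟨W, hW, hWc⟩ := (Z.finite_toSet.infinite_compl).exists_subset_card_eq (p.r * p.w + p.w0)
  obtain ⟨S, h1, h2⟩ := disj_subsets p.w (Finset.univ : Finset (Fin p.r)) W (by
    rw [Finset.card_univ, Fintype.card_fin, hWc]
    omega)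
  have hWZ : ∀ v ∈ W, v ≠ c.z ∧ v ∉ c.F ∧ v ∉ c.U ∧ v ∉ V := by
    intro v hv
    have h3 := hW hv
    rw [Set.mem_compl_iff, Finset.mem_coe, hZ] at h3
    simp only [Finset.mem_insert, Finset.mem_union, not_or] at h3
    tauto
  refine ⟨{ c with
    W := W
    S := S
    cW := hWc
    cS := fun s => (h1 s (Finset.mem_univ _)).1
    SW := fun s => (h1 s (Finset.mem_univ _)).2
    SS := fun s t hst => h2 s (Finset.mem_univ _) t (Finset.mem_univ _) hst
    WF := ?_
    WX := ?_
    zW := ?_ }, rfl, ?_⟩
  · rw [Finset.disjoint_left]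
    exact fun v hv => (hWZ v hv).2.1
  · intro i
    rw [Finset.disjoint_left]
    intro v hv hvX
    exact (hWZ v hv).2.2.1 (Finset.mem_biUnion.2 ⟨i, Finset.mem_univ _, hvX⟩)
  · intro hz
    exact (hWZ _ hz).1 rfl
  · rw [Finset.disjoint_left]
    exact fun v hv => (hWZ v hv).2.2.2

lemma edge_sub {I : Type} [Fintype I] [DecidableEq I] {p : Par I} (c : RC p) (e : Finset ℕ)
    (he : e ∈ c.edges) : e ⊆ insert c.z (c.F ∪ c.U) := by
  unfold RC.edges at he
  rw [Finset.mem_insert, Finset.mem_insert] at he
  intro v hv
  rw [Finset.mem_insert, Finset.mem_union]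
  have hXU : ∀ i, v ∈ c.X i → v ∈ c.U := fun i h =>
    Finset.mem_biUnion.2 ⟨i, Finset.mem_univ _, h⟩
  rcases he with rfl | rfl | he
  · unfold RC.ga at hv
    rcases Finset.mem_insert.1 hv with h | h
    · exact Or.inl h
    · unfold RC.PP at h
      obtain ⟨i, -, h⟩ := Finset.mem_biUnion.1 h
      exact Or.inr (Or.inr (hXU i (Finset.mem_sdiff.1 h).1))
  · unfold RC.gb at hv
    rcases Finset.mem_insert.1 hv with h | h
    · exact Or.inl h
    · unfold RC.QQ at h
      obtain ⟨i, -, h⟩ := Finset.mem_biUnion.1 h
      exact Or.inr (Or.inr (hXU i (c.TX i h)))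
  · unfold RC.coreS at he
    obtain ⟨j, -, rfl⟩ := Finset.mem_image.1 he
    unfold RC.core at hv
    rw [Finset.mem_union, Finset.mem_union] at hv
    rcases hv with h | h | h
    · exact Or.inr (Or.inl h)
    · exact Or.inr (Or.inr (hXU j (c.TX j h)))
    · obtain ⟨i, -, h⟩ := Finset.mem_biUnion.1 h
      exact Or.inr (Or.inr (hXU i h))

theorem flex (hC : S_CARD) (hE : S_EXT) : S_FLEX := by
  intro I _ _ p N0 c
  refine ⟨?_, ?_, ?_, ?_⟩
  · intro A B
    obtain ⟨h, hh, hd⟩ := hE I p c (N0.biUnion id ∪ (A ∪ B).biUnion id)
    rw [Finset.disjoint_union_right] at hd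
    refine ⟨h, hh, fun s hs => absurd hs (Nat.not_lt_zero _), ?_, ?_⟩
    · intro g hg
      exact Finset.disjoint_of_subset_right (Finset.subset_biUnion_of_mem id hg) hd.1
    · rw [mul_zero, Nat.le_zero, Finset.card_eq_zero, Finset.filter_eq_empty_iff]
      intro e he
      have h1 : Disjoint h.W e :=
        Finset.disjoint_of_subset_right (Finset.subset_biUnion_of_mem id he) hd.2
      rw [Finset.inter_comm, Finset.disjoint_iff_inter_eq_empty.1 h1]
      simp
  · intro u A B x hu ⟨h, hh, hflex, hN0, hcount⟩
    -- the remaining vertices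
    set Used : Finset ℕ := (Finset.univ.filter (fun s : Fin p.r => s.val < u)).biUnion h.S
      with hUsed
    set R : Finset ℕ := h.W \ Used with hR
    have hUcard : Used.card ≤ u * p.w := by
      refine Finset.card_biUnion_le.trans ?_
      rw [Finset.sum_congr rfl (fun s _ => h.cS s), Finset.sum_const, smul_eq_mul]
      refine Nat.mul_le_mul_right _ ?_
      have h1 : (Finset.univ.filter (fun s : Fin p.r => s.val < u)).card ≤
          (Finset.range u).card := by
        refine Finset.card_le_card_of_injOn (fun s => s.val) ?_ ?_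
        · intro s hs
          rw [Finset.mem_coe, Finset.mem_filter] at hs
          simpa using hs.2
        · intro s _ t _ hst
          exact Fin.ext hst
      rwa [Finset.card_range] at h1
    have hRcard : (p.r - u) * p.w + p.w0 ≤ R.card := by
      have h1 := Finset.le_card_sdiff Used h.W
      rw [h.cW] at h1
      have h2 : p.r * p.w = (p.r - u) * p.w + u * p.w := by
        rw [← add_mul, Nat.sub_add_cancel hu.le]
      rw [hR]
      omega
    have hRW : R ⊆ h.W := Finset.sdiff_subset
    have hwpos : 1 ≤ p.w := by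
      have := p.w_gt
      omega
    have hru : (p.r - u) * p.w = p.w + (p.r - u - 1) * p.w := by
      have : p.r - u = 1 + (p.r - u - 1) := by omega
      conv_lhs => rw [this, add_mul, one_mul]
    obtain ⟨M0, hM0, hM0c⟩ := Finset.exists_subset_card_eq (s := R) (n := p.w - 1) (by omega)
    set Bad : Finset (Finset ℕ) := (insert x A ∪ B).filter (fun e => 2 ≤ (e ∩ h.W).card)
      with hBad
    have hBadc : Bad.card ≤ 2 * u + 1 := by
      have h1 : Bad ⊆ insert x ((A ∪ B).filter (fun e => 2 ≤ (e ∩ h.W).card)) := by
        intro e he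
        rw [hBad, Finset.mem_filter, Finset.mem_union, Finset.mem_insert] at he
        rw [Finset.mem_insert, Finset.mem_filter, Finset.mem_union]
        tauto
      have h2 := (Finset.card_le_card h1).trans (Finset.card_insert_le _ _)
      omega
    -- candidates
    have hzF : h.z ∉ h.F := h.zF
    have hcand : ∃ m ∈ R \ M0, insert h.z (h.F ∪ (h.W \ insert m M0)) ∉ Bad := by
      by_contra hcon
      push Not at hcon
      have h1 : (R \ M0).card ≤ Bad.card := by
        refine Finset.card_le_card_of_injOn
          (fun m => insert h.z (h.F ∪ (h.W \ insert m M0))) (fun m hm => hcon m hm) ?_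
        intro m hm m' hm' heq
        by_contra hne
        simp only at heq
        rw [Finset.mem_coe, Finset.mem_sdiff] at hm hm'
        have h2 : m' ∈ insert h.z (h.F ∪ (h.W \ insert m M0)) := by
          rw [Finset.mem_insert, Finset.mem_union, Finset.mem_sdiff, Finset.mem_insert]
          right; right
          refine ⟨hRW hm'.1, ?_⟩
          rintro (h3 | h3)
          · exact hne h3.symm
          · exact hm'.2 h3
        rw [heq, Finset.mem_insert, Finset.mem_union, Finset.mem_sdiff, Finset.mem_insert] at h2
        rcases h2 with h3 | h3 | h3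
        · exact h.zW (h3 ▸ hRW hm'.1)
        · exact Finset.disjoint_left.1 h.WF (hRW hm'.1) h3
        · exact h3.2 (Or.inl rfl)
      have h2 : (R \ M0).card = R.card - (p.w - 1) := by
        rw [Finset.card_sdiff_of_subset hM0, hM0c]
      have h3 := p.w0_ge
      omega
    obtain ⟨m, hm, hmBad⟩ := hcand
    rw [Finset.mem_sdiff] at hm
    set S' : Finset ℕ := insert m M0 with hS'
    have hS'R : S' ⊆ R := Finset.insert_subset hm.1 hM0
    have hS'c : S'.card = p.w := by
      rw [hS', Finset.card_insert_of_notMem hm.2, hM0c]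
      omega
    -- the new sets
    obtain ⟨S2, h1, h2⟩ := disj_subsets p.w (Finset.univ.filter (fun s : Fin p.r => u < s.val))
      (R \ S') (by
        rw [Finset.card_sdiff_of_subset hS'R, hS'c]
        have h3 : (Finset.univ.filter (fun s : Fin p.r => u < s.val)).card ≤ p.r - u - 1 := by
          have h4 : (Finset.univ.filter (fun s : Fin p.r => u < s.val)).card ≤
              (Finset.Ioo u p.r).card := by
            refine Finset.card_le_card_of_injOn (fun s => s.val) ?_ ?_
            · intro s hs
              rw [Finset.mem_coe, Finset.mem_filter] at hs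
              simp only [Finset.coe_Ioo, Set.mem_Ioo]
              exact ⟨hs.2, s.2⟩
            · intro s _ t _ hst
              exact Fin.ext hst
          rwa [Nat.card_Ioo] at h4
        have h4 := Nat.mul_le_mul_right p.w h3
        omega)
    set S3 : Fin p.r → Finset ℕ := fun s => if s.val < u then h.S s else
      if s.val = u then S' else S2 s with hS3
    have h1' : ∀ s : Fin p.r, u < s.val → (S2 s).card = p.w ∧ S2 s ⊆ R \ S' := fun s hs =>
      h1 s (Finset.mem_filter.2 ⟨Finset.mem_univ _, hs⟩)
    have hlt : ∀ s : Fin p.r, s.val < u → S3 s = h.S s := fun s hs => by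
      simp only [hS3, if_pos hs]
    have heq : ∀ s : Fin p.r, s.val = u → S3 s = S' := fun s hs => by
      simp only [hS3, hs, lt_irrefl, if_false, if_true]
    have hgt : ∀ s : Fin p.r, u < s.val → S3 s = S2 s := fun s hs => by
      simp only [hS3, if_neg (show ¬ s.val < u by omega), if_neg (show ¬ s.val = u by omega)]
    have hdR : ∀ s : Fin p.r, s.val < u → Disjoint (h.S s) R := by
      intro s hs
      have h3 : h.S s ⊆ Used := Finset.subset_biUnion_of_mem h.S
        (Finset.mem_filter.2 ⟨Finset.mem_univ _, hs⟩)
      exact Finset.disjoint_of_subset_left h3 Finset.disjoint_sdiff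
    -- pairwise disjointness for s < t
    have hdis : ∀ s t : Fin p.r, s.val < t.val → Disjoint (S3 s) (S3 t) := by
      intro s t hst
      rcases lt_trichotomy s.val u with hs | hs | hs
      · rw [hlt s hs]
        rcases lt_trichotomy t.val u with ht | ht | ht
        · rw [hlt t ht]
          exact h.SS s t (fun h3 => by rw [h3] at hst; exact lt_irrefl _ hst)
        · rw [heq t ht]
          exact Finset.disjoint_of_subset_right hS'R (hdR s hs)
        · rw [hgt t ht]
          exact Finset.disjoint_of_subset_right
            ((h1' t ht).2.trans Finset.sdiff_subset) (hdR s hs)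
      · rw [heq s hs, hgt t (by omega)]
        exact Finset.disjoint_of_subset_right (h1' t (by omega)).2 Finset.disjoint_sdiff
      · rw [hgt s hs, hgt t (by omega)]
        exact h2 s (Finset.mem_filter.2 ⟨Finset.mem_univ _, hs⟩) t
          (Finset.mem_filter.2 ⟨Finset.mem_univ _, by omega⟩)
          (fun h3 => by rw [h3] at hst; exact lt_irrefl _ hst)
    set h' : HC p := { h with
      S := S3
      cS := fun s => by
        rcases lt_trichotomy s.val u with hs | hs | hs
        · rw [hlt s hs]; exact h.cS s
        · rw [heq s hs]; exact hS'c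
        · rw [hgt s hs]; exact (h1' s hs).1
      SW := fun s => by
        rcases lt_trichotomy s.val u with hs | hs | hs
        · rw [hlt s hs]; exact h.SW s
        · rw [heq s hs]; exact hS'R.trans hRW
        · rw [hgt s hs]; exact ((h1' s hs).2.trans Finset.sdiff_subset).trans hRW
      SS := fun s t hst => by
        rcases lt_or_gt_of_ne (fun h3 : s.val = t.val => hst (Fin.ext h3)) with h3 | h3
        · exact hdis s t h3
        · exact (hdis t s h3).symm } with hh'
    have hflexu : h'.flex ⟨u, hu⟩ = insert h.z (h.F ∪ (h.W \ S')) := by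
      have h3 : h'.S ⟨u, hu⟩ = S' := heq ⟨u, hu⟩ rfl
      unfold HC.flex
      rw [h3]
    have hflexlt : ∀ s : Fin p.r, s.val < u → h'.flex s = h.flex s := by
      intro s hs
      have h3 : h'.S s = h.S s := hlt s hs
      unfold HC.flex
      rw [h3]
    have hymem : h'.flex ⟨u, hu⟩ ∈ h'.hedges := by
      unfold HC.hedges
      exact Finset.mem_union_right _ (Finset.mem_image_of_mem _ (Finset.mem_univ _))
    have hyW : 2 ≤ (h'.flex ⟨u, hu⟩ ∩ h.W).card := by
      rw [hflexu]
      have h3 : h.W \ S' ⊆ insert h.z (h.F ∪ (h.W \ S')) ∩ h.W := by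
        intro v hv
        rw [Finset.mem_inter, Finset.mem_insert, Finset.mem_union]
        exact ⟨Or.inr (Or.inr hv), (Finset.mem_sdiff.1 hv).1⟩
      have h4 := Finset.card_le_card h3
      rw [Finset.card_sdiff_of_subset (hS'R.trans hRW), h.cW, hS'c] at h4
      have h5 := p.w0_ge
      have h6 : p.w ≤ p.r * p.w := Nat.le_mul_of_pos_left _ (by omega)
      omega
    have hynot : h'.flex ⟨u, hu⟩ ∉ insert x A ∪ B := by
      intro h3
      apply hmBad
      rw [← hflexu, hBad, Finset.mem_filter]
      exact ⟨h3, hyW⟩
    rw [Finset.mem_union, not_or] at hynot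
    refine ⟨h'.flex ⟨u, hu⟩, (hC I p).2.2.2.2.2.1 h' _ hymem, hynot.1, hynot.2, h', hh, ?_, hN0,
      ?_⟩
    · intro s hs
      rcases lt_or_eq_of_le (Nat.lt_succ_iff.1 hs) with h3 | h3
      · rw [hflexlt s h3]
        exact Finset.mem_insert_of_mem (hflex s h3)
      · have h4 : s = ⟨u, hu⟩ := Fin.ext h3
        rw [h4]
        exact Finset.mem_insert_self _ _
    · have h3 : (insert x A ∪ insert (h'.flex ⟨u, hu⟩) B).filter
          (fun e => 2 ≤ (e ∩ h'.W).card) ⊆ insert (h'.flex ⟨u, hu⟩) Bad := by
        intro e he
        rw [Finset.mem_filter, Finset.mem_union, Finset.mem_insert, Finset.mem_insert] at he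
        rw [hBad, Finset.mem_insert, Finset.mem_filter, Finset.mem_union, Finset.mem_insert]
        have h4 : 2 ≤ (e ∩ h.W).card := he.2
        tauto
      have h4 := (Finset.card_le_card h3).trans (Finset.card_insert_le _ _)
      omega
  · intro u A B x y ⟨h, hh, hflex, hN0, hcount⟩ ⟨c', hx, hy, hcov⟩
    refine ⟨h, hh, fun s hs => Finset.mem_insert_of_mem (hflex s hs), hN0, ?_⟩
    have hsmall : ∀ e ∈ c'.edges, (e ∩ h.W).card ≤ 1 := by
      intro e he
      have h1 : e ∩ h.W ⊆ {c'.z} := by
        intro v hv
        rw [Finset.mem_inter] at hv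
        rcases Finset.mem_insert.1 (edge_sub c' e he hv.1) with h2 | h2
        · exact Finset.mem_singleton.2 h2
        · obtain ⟨g, hg, hvg⟩ := hcov v h2
          exact absurd hvg (Finset.disjoint_left.1 (hN0 g hg) hv.2)
      exact (Finset.card_le_card h1).trans (Finset.card_singleton _).le
    refine (Finset.card_le_card ?_).trans hcount
    intro e he
    rw [Finset.mem_filter, Finset.mem_union, Finset.mem_insert, Finset.mem_insert] at he
    rw [Finset.mem_filter, Finset.mem_union]
    have h1 := hsmall x hx
    have h2 := hsmall y hy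
    refine ⟨?_, he.2⟩
    rcases he.1 with (h3 | h3) | (h3 | h3)
    · rw [← h3] at h1
      omega
    · exact Or.inl h3
    · rw [← h3] at h2
      omega
    · exact Or.inr h3
  · intro A B ⟨h, hh, hflex, _, _⟩ hc
    refine ⟨h, ?_⟩
    unfold HC.hedges
    refine Finset.union_subset (by rw [hh]; exact hc) ?_
    intro e he
    obtain ⟨s, -, rfl⟩ := Finset.mem_image.1 he
    exact hflex s s.2

end Pool.Agent.W346.DR
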